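import Pool.Agent.helper54.UG.Spec

/-!
Row LIN of the project ug (MP_a2a22c): the logarithms of a radicable unipotent group form a subspace.
-/

set_option autoImplicit false

namespace Pool.Agent.UG

open Matrix Pool.Agent.H48SL

open Polynomial (aeval C)

/-- a filtration -/
structure LIN_F {n : ℕ} (fil : ℕ → Submodule ℚ (MQ n)) : Prop where
  mul : ∀ i j, ∀ X ∈ fil i, ∀ Y ∈ fil j, X * Y ∈ fil (i + j)
  anti : ∀ i, fil (i + 1) ≤ fil i

section

variable {n : ℕ} {fil : ℕ → Submodule ℚ (MQ n)}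

theorem LIN_F.le (hF : LIN_F fil) {i j : ℕ} (h : i ≤ j) : fil j ≤ fil i :=
  antitone_nat_of_succ_le hF.anti h

theorem LIN_F.pow (hF : LIN_F fil) {X : MQ n} (hX : X ∈ fil 1) (k : ℕ) :
    X ^ (k + 1) ∈ fil (k + 1) := by
  induction k with
  | zero => simpa using hX
  | succ k ih =>
    rw [pow_succ]
    exact hF.mul (k + 1) 1 _ ih _ hX

theorem LIN_F.pow_zero' (hF : LIN_F fil) {K : ℕ} (hK : fil (K + 1) = ⊥) {X : MQ n}
    (hX : X ∈ fil 1) : X ^ (K + 1) = 0 := by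
  have h := hF.pow hX K
  rw [hK] at h
  exact (Submodule.mem_bot ℚ).1 h

theorem LIN_aeval_C (W : MQ n) (a : ℚ) : aeval W (C a) = a • (1 : MQ n) := by
  rw [Polynomial.aeval_C, Algebra.algebraMap_eq_smul_one]

theorem LIN_aeval_mon (W : MQ n) (a : ℚ) (k : ℕ) :
    aeval W (C a * Polynomial.X ^ k) = a • W ^ k := by
  rw [map_mul, LIN_aeval_C, map_pow, Polynomial.aeval_X, smul_mul_assoc, one_mul]

theorem LIN_F.mulr (hF : LIN_F fil) {j : ℕ} {Z W : MQ n} (hZ : Z ∈ fil j) (hW : W ∈ fil 1)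
    (q : Polynomial ℚ) : Z * aeval W q ∈ fil j := by
  induction q using Polynomial.induction_on with
  | C a =>
    rw [LIN_aeval_C, mul_smul_comm, mul_one]
    exact (fil j).smul_mem _ hZ
  | add p q hp hq =>
    rw [map_add, mul_add]
    exact (fil j).add_mem hp hq
  | monomial k a _ =>
    rw [LIN_aeval_mon, mul_smul_comm]
    refine (fil j).smul_mem _ (hF.le (Nat.le_add_right j (k + 1)) ?_)
    exact hF.mul j (k + 1) _ hZ _ (hF.pow hW k)

theorem LIN_F.mull (hF : LIN_F fil) {j : ℕ} {Z W : MQ n} (hZ : Z ∈ fil j) (hW : W ∈ fil 1)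
    (q : Polynomial ℚ) : aeval W q * Z ∈ fil j := by
  induction q using Polynomial.induction_on with
  | C a =>
    rw [LIN_aeval_C, smul_mul_assoc, one_mul]
    exact (fil j).smul_mem _ hZ
  | add p q hp hq =>
    rw [map_add, add_mul]
    exact (fil j).add_mem hp hq
  | monomial k a _ =>
    rw [LIN_aeval_mon, smul_mul_assoc]
    refine (fil j).smul_mem _ (hF.le (Nat.le_add_left j (k + 1)) ?_)
    exact hF.mul (k + 1) j _ (hF.pow hW k) _ hZ

theorem LIN_F.congr (hF : LIN_F fil) {j : ℕ} {B D : MQ n} (hB : B ∈ fil 1) (hj : 1 ≤ j)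
    (hD : D ∈ fil j) (q : Polynomial ℚ) : aeval (B + D) q - aeval B q ∈ fil j := by
  have hBD : B + D ∈ fil 1 := (fil 1).add_mem hB (hF.le hj hD)
  have key : ∀ k : ℕ, (B + D) ^ k - B ^ k ∈ fil j := by
    intro k
    induction k with
    | zero => simp
    | succ k ih =>
      have e : (B + D) ^ (k + 1) - B ^ (k + 1) = ((B + D) ^ k - B ^ k) * (B + D) + B ^ k * D := by
        rw [pow_succ, pow_succ, sub_mul]
        simp only [mul_add]
        abel
      rw [e]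
      refine (fil j).add_mem (hF.le (Nat.le_add_right j 1) (hF.mul j 1 _ ih _ hBD)) ?_
      rcases k with _ | k
      · simpa using hD
      · exact hF.le (Nat.le_add_left j (k + 1)) (hF.mul (k + 1) j _ (hF.pow hB k) _ hD)
  induction q using Polynomial.induction_on with
  | C a => simp
  | add p q hp hq =>
    rw [map_add, map_add, add_sub_add_comm]
    exact (fil j).add_mem hp hq
  | monomial k a _ =>
    rw [LIN_aeval_mon, LIN_aeval_mon, ← smul_sub]
    exact (fil j).smul_mem _ (key (k + 1))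

end

/-- the exponential series without its first two terms -/
noncomputable def LIN_u (L : ℕ) : Polynomial ℚ :=
  ∑ k ∈ Finset.range L, C (((k + 2).factorial : ℚ)⁻¹) * Polynomial.X ^ k

/-- the truncated exponential series -/
noncomputable def LIN_e (L : ℕ) : Polynomial ℚ := 1 + Polynomial.X + Polynomial.X ^ 2 * LIN_u L

theorem LIN_e_aeval {n : ℕ} (L : ℕ) (W : MQ n) :
    aeval W (LIN_e L) = 1 + W + W ^ 2 * aeval W (LIN_u L) := by
  unfold LIN_e
  rw [map_add, map_add, map_one, Polynomial.aeval_X, map_mul, map_pow, Polynomial.aeval_X]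

theorem LIN_exp {n L : ℕ} {W : MQ n} (h : W ^ (L + 2) = 0) :
    IsNilpotent.exp W = aeval W (LIN_e L) := by
  rw [IsNilpotent.exp_eq_sum h, Finset.sum_range_succ', Finset.sum_range_succ', LIN_e_aeval]
  unfold LIN_u
  rw [map_sum, Finset.mul_sum]
  have h1 : ∀ k ∈ Finset.range L, W ^ 2 * aeval W (C (((k + 2).factorial : ℚ)⁻¹) *
      Polynomial.X ^ k) = (((k + 1 + 1).factorial : ℚ)⁻¹) • W ^ (k + 1 + 1) := by
    intro k _
    rw [LIN_aeval_mon, mul_smul_comm, ← pow_add, add_comm 2 k]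
  rw [Finset.sum_congr rfl h1]
  simp
  abel

/-! ### polynomial curves -/

theorem LIN_PC_id {n : ℕ} {f : ℚ → MQ n} (hf : PC f) : PC (fun t => t • f t) := by
  have h := hf.smul Polynomial.X
  simpa only [Polynomial.eval_X] using h

theorem LIN_PC_c {n : ℕ} {f : ℚ → MQ n} (hf : PC f) (c : ℚ) : PC (fun t => c • f t) := by
  have h := hf.smul (C c)
  simpa only [Polynomial.eval_C] using h

theorem LIN_PC_aeval {n : ℕ} {f : ℚ → MQ n} (hf : PC f) (q : Polynomial ℚ) :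
    PC (fun t => aeval (f t) q) := by
  induction q using Polynomial.induction_on with
  | C a =>
    simp only [LIN_aeval_C]
    exact PC.const _
  | add p q hp hq =>
    simp only [map_add]
    exact hp.add hq
  | monomial k a _ =>
    simp only [LIN_aeval_mon]
    exact LIN_PC_c (hf.pow _) a

/-! ### the step -/

section

variable {n : ℕ}

/-- auxiliary curves -/
noncomputable def LIN_U (L : ℕ) (X : MQ n) (t : ℚ) : MQ n := X ^ 2 * aeval (t • X) (LIN_u L)

noncomputable def LIN_R (L : ℕ) (X Y : MQ n) (t : ℚ) : MQ n :=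
  X * Y + LIN_U L X t + LIN_U L Y t + t • (X * LIN_U L Y t + LIN_U L X t * Y) +
    (t ^ 2) • (LIN_U L X t * LIN_U L Y t)

noncomputable def LIN_A (L : ℕ) (X Y : MQ n) (t : ℚ) : MQ n := X + Y + t • LIN_R L X Y t

noncomputable def LIN_M (L : ℕ) (Q : Polynomial ℚ) (X Y : MQ n) (t : ℚ) : MQ n :=
  LIN_A L X Y t + t • (LIN_A L X Y t * LIN_A L X Y t * aeval (t • LIN_A L X Y t) Q)

theorem LIN_M_zero (L : ℕ) (Q : Polynomial ℚ) (X Y : MQ n) : LIN_M L Q X Y 0 = X + Y := by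
  unfold LIN_M LIN_A
  simp

theorem LIN_PC_U (L : ℕ) (X : MQ n) : PC (LIN_U L X) :=
  (PC.const (X ^ 2)).mul (LIN_PC_aeval (LIN_PC_id (PC.const X)) _)

theorem LIN_PC_R (L : ℕ) (X Y : MQ n) : PC (LIN_R L X Y) := by
  have h1 : PC (fun t : ℚ => (t ^ 2) • (LIN_U L X t * LIN_U L Y t)) := by
    have h := ((LIN_PC_U L X).mul (LIN_PC_U L Y)).smul (Polynomial.X ^ 2)
    simpa only [Polynomial.eval_pow, Polynomial.eval_X] using h
  exact ((((PC.const (X * Y)).add (LIN_PC_U L X)).add (LIN_PC_U L Y)).add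
    (LIN_PC_id (((PC.const X).mul (LIN_PC_U L Y)).add ((LIN_PC_U L X).mul (PC.const Y))))).add h1

theorem LIN_PC_A (L : ℕ) (X Y : MQ n) : PC (LIN_A L X Y) :=
  (PC.const (X + Y)).add (LIN_PC_id (LIN_PC_R L X Y))

theorem LIN_PC_M (L : ℕ) (Q : Polynomial ℚ) (X Y : MQ n) : PC (LIN_M L Q X Y) :=
  (LIN_PC_A L X Y).add (LIN_PC_id (((LIN_PC_A L X Y).mul (LIN_PC_A L X Y)).mul
    (LIN_PC_aeval (LIN_PC_id (LIN_PC_A L X Y)) Q)))

theorem LIN_expt {L : ℕ} {X : MQ n} (h : X ^ (L + 2) = 0) (t : ℚ) :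
    IsNilpotent.exp (t • X) = 1 + t • X + (t ^ 2) • LIN_U L X t := by
  have h1 : (t • X) ^ (L + 2) = 0 := by rw [smul_pow, h, smul_zero]
  rw [LIN_exp h1, LIN_e_aeval, smul_pow, smul_mul_assoc]
  rfl

theorem LIN_prod {L : ℕ} {X Y : MQ n} (hX : X ^ (L + 2) = 0) (hY : Y ^ (L + 2) = 0) (t : ℚ) :
    IsNilpotent.exp (t • X) * IsNilpotent.exp (t • Y) - 1 = t • LIN_A L X Y t := by
  rw [LIN_expt hX, LIN_expt hY]
  unfold LIN_A LIN_R
  generalize LIN_U L X t = U
  generalize LIN_U L Y t = V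
  simp only [mul_add, add_mul, smul_mul_assoc, mul_smul_comm, one_mul, mul_one]
  module

theorem LIN_aevalM (L : ℕ) (Q : Polynomial ℚ) (X Y : MQ n) (t : ℚ) :
    aeval (t • LIN_A L X Y t) (Polynomial.X + Polynomial.X ^ 2 * Q) = t • LIN_M L Q X Y t := by
  unfold LIN_M
  rw [map_add, map_mul, map_pow, Polynomial.aeval_X, smul_pow, smul_mul_assoc, smul_add,
    smul_smul, pow_two, pow_two]

end

theorem LIN_step {n : ℕ} {fil : ℕ → Submodule ℚ (MQ n)} (hF : LIN_F fil) (L : ℕ)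
    (hL : fil (L + 2) = ⊥) (Q : Polynomial ℚ)
    (h1 : ∀ N : MQ n, IsNilpotent N →
      IsNilpotent.exp (aeval N (Polynomial.X + Polynomial.X ^ 2 * Q)) = 1 + N)
    (h2 : ∀ Z : MQ n, IsNilpotent Z →
      aeval (IsNilpotent.exp Z - 1) (Polynomial.X + Polynomial.X ^ 2 * Q) = Z)
    (S : Set (MQ n)) (hS1 : ∀ X ∈ S, X ∈ fil 1) (hS0 : 0 ∈ S)
    (hSs : ∀ X ∈ S, ∀ t : ℚ, t • X ∈ S)
    (hSm : ∀ X ∈ S, ∀ Y ∈ S, ∃ Z ∈ S,
      IsNilpotent.exp Z = IsNilpotent.exp X * IsNilpotent.exp Y)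
    (i : ℕ) (hi : 1 ≤ i)
    (ih : ∀ X ∈ S, X ∈ fil (i + 1) → ∀ Y ∈ S, Y ∈ fil (i + 1) → X + Y ∈ S) :
    ∀ X ∈ S, X ∈ fil i → ∀ Y ∈ S, Y ∈ fil i → X + Y ∈ S := by
  intro X hX hXi Y hY hYi
  have nil : ∀ W ∈ fil 1, W ^ (L + 2) = 0 := fun W hW => hF.pow_zero' hL hW
  have nil' : ∀ W ∈ fil 1, IsNilpotent W := fun W hW => ⟨L + 2, nil W hW⟩
  have hi1 : fil (i + 1) ≤ fil 1 := hF.le (by omega)
  have hii : fil i ≤ fil 1 := hF.le hi
  have hexp : ∀ W ∈ fil 1, IsNilpotent.exp W = aeval W (LIN_e L) := fun W hW => LIN_exp (nil W hW)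
  -- the subspace
  let 𝔤 : Submodule ℚ (MQ n) :=
    { carrier := {W | W ∈ S ∧ W ∈ fil (i + 1)}
      add_mem' := fun {a b} ha hb => ⟨ih a ha.1 ha.2 b hb.1 hb.2, (fil (i + 1)).add_mem ha.2 hb.2⟩
      zero_mem' := ⟨hS0, (fil (i + 1)).zero_mem⟩
      smul_mem' := fun c x hx => ⟨hSs x hx.1 c, (fil (i + 1)).smul_mem c hx.2⟩ }
  -- membership of the auxiliary curves
  have two : ∀ {a b : MQ n}, a ∈ fil i → b ∈ fil i → a * b ∈ fil (i + 1) := fun ha hb =>
    hF.le (by omega) (hF.mul i i _ ha _ hb)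
  have hU : ∀ (W : MQ n), W ∈ fil i → ∀ t, LIN_U L W t ∈ fil (i + 1) := by
    intro W hW t
    unfold LIN_U
    refine hF.mulr ?_ ((fil 1).smul_mem _ (hii hW)) _
    rw [pow_two]
    exact two hW hW
  have hUi : ∀ (W : MQ n), W ∈ fil i → ∀ t, LIN_U L W t ∈ fil i := fun W hW t =>
    hF.anti i (hU W hW t)
  have hR : ∀ t, LIN_R L X Y t ∈ fil (i + 1) := by
    intro t
    unfold LIN_R
    refine (fil (i + 1)).add_mem ((fil (i + 1)).add_mem ((fil (i + 1)).add_mem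
      ((fil (i + 1)).add_mem (two hXi hYi) (hU X hXi t)) (hU Y hYi t)) ?_) ?_
    · exact (fil (i + 1)).smul_mem _ ((fil (i + 1)).add_mem (two hXi (hUi Y hYi t))
        (two (hUi X hXi t) hYi))
    · exact (fil (i + 1)).smul_mem _ (two (hUi X hXi t) (hUi Y hYi t))
  have hA : ∀ t, LIN_A L X Y t ∈ fil i := by
    intro t
    unfold LIN_A
    exact (fil i).add_mem ((fil i).add_mem hXi hYi) ((fil i).smul_mem _ (hF.anti i (hR t)))
  have hN : ∀ t : ℚ, t • LIN_A L X Y t ∈ fil 1 := fun t => (fil 1).smul_mem _ (hii (hA t))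
  set B : MQ n := X + Y with hB
  have hBi : B ∈ fil i := (fil i).add_mem hXi hYi
  have hC : ∀ t, LIN_M L Q X Y t - B ∈ fil (i + 1) := by
    intro t
    have e : LIN_M L Q X Y t - B = t • LIN_R L X Y t +
        t • (LIN_A L X Y t * LIN_A L X Y t * aeval (t • LIN_A L X Y t) Q) := by
      unfold LIN_M
      rw [hB]
      conv_lhs => rw [show LIN_A L X Y t = X + Y + t • LIN_R L X Y t from rfl]
      rw [show LIN_A L X Y t = X + Y + t • LIN_R L X Y t from rfl]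
      abel
    rw [e]
    exact (fil (i + 1)).add_mem ((fil (i + 1)).smul_mem _ (hR t))
      ((fil (i + 1)).smul_mem _ (hF.mulr (two (hA t) (hA t)) (hN t) _))
  have hMi : ∀ t, LIN_M L Q X Y t ∈ fil i := by
    intro t
    have h := (fil i).add_mem (hF.anti i (hC t)) hBi
    rwa [sub_add_cancel] at h
  have hMS : ∀ t, t ≠ 0 → LIN_M L Q X Y t ∈ S := by
    intro t ht
    obtain ⟨Z, hZS, hZ⟩ := hSm _ (hSs X hX t) _ (hSs Y hY t)
    have e1 := h2 Z (nil' Z (hS1 Z hZS))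
    rw [hZ, LIN_prod (nil X (hii hXi)) (nil Y (hii hYi)), LIN_aevalM] at e1
    have e2 : LIN_M L Q X Y t = t⁻¹ • Z := by
      rw [← e1, smul_smul, inv_mul_cancel₀ ht, one_smul]
    rw [e2]
    exact hSs Z hZS _
  -- the difference of two values
  have hW : ∀ t : ℚ, IsNilpotent.exp (-LIN_M L Q X Y t) * IsNilpotent.exp (LIN_M L Q X Y 1) - 1 ∈
      fil (i + 1) := by
    intro t
    have m1 : -LIN_M L Q X Y t ∈ fil 1 := (fil 1).neg_mem (hii (hMi t))
    have m2 : LIN_M L Q X Y 1 ∈ fil 1 := hii (hMi 1)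
    have mB : B ∈ fil 1 := hii hBi
    have mB' : -B ∈ fil 1 := (fil 1).neg_mem mB
    have c1 : aeval (-LIN_M L Q X Y t) (LIN_e L) - aeval (-B) (LIN_e L) ∈ fil (i + 1) := by
      have h := hF.congr mB' (by omega : 1 ≤ i + 1) ((fil (i + 1)).neg_mem (hC t)) (LIN_e L)
      have e : -B + -(LIN_M L Q X Y t - B) = -LIN_M L Q X Y t := by abel
      rwa [e] at h
    have c2 : aeval (LIN_M L Q X Y 1) (LIN_e L) - aeval B (LIN_e L) ∈ fil (i + 1) := by
      have h := hF.congr mB (by omega : 1 ≤ i + 1) (hC 1) (LIN_e L)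
      have e : B + (LIN_M L Q X Y 1 - B) = LIN_M L Q X Y 1 := by abel
      rwa [e] at h
    have e0 : aeval (-B) (LIN_e L) * aeval B (LIN_e L) = 1 := by
      rw [← hexp _ mB, ← hexp _ mB']
      exact IsNilpotent.exp_neg_mul_exp_self (nil' B mB)
    rw [hexp _ m1, hexp _ m2]
    have e : aeval (-LIN_M L Q X Y t) (LIN_e L) * aeval (LIN_M L Q X Y 1) (LIN_e L) - 1 =
        (aeval (-LIN_M L Q X Y t) (LIN_e L) - aeval (-B) (LIN_e L)) *
          aeval (LIN_M L Q X Y 1) (LIN_e L) +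
        aeval (-B) (LIN_e L) * (aeval (LIN_M L Q X Y 1) (LIN_e L) - aeval B (LIN_e L)) := by
      rw [sub_mul, mul_sub, e0]
      abel
    rw [e]
    exact (fil (i + 1)).add_mem (hF.mulr c1 m2 _) (hF.mull c2 mB' _)
  have hPf : ∀ W ∈ fil (i + 1), aeval W (Polynomial.X + Polynomial.X ^ 2 * Q) ∈ fil (i + 1) := by
    intro W hW
    rw [map_add, map_mul, map_pow, Polynomial.aeval_X]
    refine (fil (i + 1)).add_mem hW (hF.mulr ?_ (hi1 hW) _)
    rw [pow_two]
    exact two (hF.anti i hW) (hF.anti i hW)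
  -- the curve
  let f : ℚ → MQ n := fun t =>
    aeval (aeval ((-1 : ℚ) • LIN_M L Q X Y t) (LIN_e L) * IsNilpotent.exp (LIN_M L Q X Y 1) + -1)
      (Polynomial.X + Polynomial.X ^ 2 * Q)
  have hf : PC f := LIN_PC_aeval (((LIN_PC_aeval (LIN_PC_c (LIN_PC_M L Q X Y) (-1)) _).mul
    (PC.const _)).add (PC.const (-1))) _
  have hfe : ∀ t, f t = aeval (IsNilpotent.exp (-LIN_M L Q X Y t) *
      IsNilpotent.exp (LIN_M L Q X Y 1) - 1) (Polynomial.X + Polynomial.X ^ 2 * Q) := by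
    intro t
    simp only [f]
    rw [neg_one_smul, ← hexp _ ((fil 1).neg_mem (hii (hMi t))), ← sub_eq_add_neg]
  have hfm : ∀ t, t ≠ 0 → f t ∈ 𝔤 := by
    intro t ht
    rw [hfe]
    refine ⟨?_, hPf _ (hW t)⟩
    have hneg : -LIN_M L Q X Y t ∈ S := by
      have h := hSs _ (hMS t ht) (-1)
      rwa [neg_one_smul] at h
    obtain ⟨D, hDS, hD⟩ := hSm _ hneg _ (hMS 1 one_ne_zero)
    rw [← hD, h2 D (nil' D (hS1 D hDS))]
    exact hDS
  have h0 := hf.mem_zero 𝔤 hfm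
  -- conclusion
  have hf0 : f 0 ∈ S := h0.1
  have e1 : IsNilpotent.exp (f 0) =
      IsNilpotent.exp (-B) * IsNilpotent.exp (LIN_M L Q X Y 1) := by
    rw [hfe 0, h1 _ (nil' _ (hi1 (hW 0))), LIN_M_zero]
    abel
  have hneg : -f 0 ∈ S := by
    have h := hSs _ hf0 (-1)
    rwa [neg_one_smul] at h
  obtain ⟨Z, hZS, hZ⟩ := hSm _ (hMS 1 one_ne_zero) _ hneg
  have nB := nil' B (hii hBi)
  have nf := nil' (f 0) (hS1 _ hf0)
  have e2 : IsNilpotent.exp B = IsNilpotent.exp Z := by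
    rw [hZ]
    calc IsNilpotent.exp B
        = IsNilpotent.exp B * (IsNilpotent.exp (f 0) * IsNilpotent.exp (-f 0)) := by
          rw [IsNilpotent.exp_mul_exp_neg_self nf, mul_one]
      _ = IsNilpotent.exp B * IsNilpotent.exp (-B) * IsNilpotent.exp (LIN_M L Q X Y 1) *
            IsNilpotent.exp (-f 0) := by
          rw [e1]
          simp only [mul_assoc]
      _ = IsNilpotent.exp (LIN_M L Q X Y 1) * IsNilpotent.exp (-f 0) := by
          rw [IsNilpotent.exp_mul_exp_neg_self nB, one_mul]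
  have e3 : B = Z := by
    rw [← h2 B nB, ← h2 Z (nil' Z (hS1 Z hZS)), e2]
  rw [e3]
  exact hZS

theorem LIN (_hEXJ : EXJ_stmt) (hLG : LG_stmt) : LIN_stmt := by
  intro n fil hmul hanti ⟨N, hN⟩ S hS1 hS0 hSs hSm
  obtain ⟨P, hP, h1, h2⟩ := hLG n
  obtain ⟨Q, hQ⟩ := hP
  have hPQ : P = Polynomial.X + Polynomial.X ^ 2 * Q := by rw [← hQ]; ring
  subst hPQ
  have hF : LIN_F fil := ⟨hmul, hanti⟩
  have hL : fil (N + 2) = ⊥ := by
    rw [eq_bot_iff, ← hN]
    exact hF.le (by omega)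
  have key : ∀ k i : ℕ, 1 ≤ i → N + 2 ≤ i + k →
      ∀ X ∈ S, X ∈ fil i → ∀ Y ∈ S, Y ∈ fil i → X + Y ∈ S := by
    intro k
    induction k with
    | zero =>
      intro i hi hik X hX hXi Y hY hYi
      have h3 : fil i = ⊥ := by
        rw [eq_bot_iff, ← hL]
        exact hF.le (by omega)
      rw [h3] at hXi hYi
      rw [(Submodule.mem_bot ℚ).1 hXi, (Submodule.mem_bot ℚ).1 hYi, add_zero]
      exact hS0
    | succ k ih =>
      intro i hi hik
      exact LIN_step hF N hL Q h1 h2 S hS1 hS0 hSs hSm i hi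
        (ih (i + 1) (by omega) (by omega))
  intro X hX Y hY
  exact key (N + 2) 1 le_rfl (by omega) X hX (hS1 X hX) Y hY (hS1 Y hY)

end Pool.Agent.UG
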