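import Pool.Agent.helper54.UG.Spec3

/-!
Row SFM of the project ug (MP_a2a22c): the polynomial family when there is a totally isotropic plane.
-/

set_option autoImplicit false

namespace Pool.Agent.UG

open Matrix Pool.Agent.H48SL

section

variable {m : ℕ} (S : MQ m)

theorem SFM_add_left (x y z : Fin m → ℚ) : bf S (x + y) z = bf S x z + bf S y z := by
  unfold bf; rw [add_dotProduct]

theorem SFM_sub_left (x y z : Fin m → ℚ) : bf S (x - y) z = bf S x z - bf S y z := by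
  unfold bf; rw [sub_dotProduct]

theorem SFM_smul_left (c : ℚ) (x z : Fin m → ℚ) : bf S (c • x) z = c * bf S x z := by
  unfold bf; rw [smul_dotProduct, smul_eq_mul]

theorem SFM_add_right (x y z : Fin m → ℚ) : bf S z (x + y) = bf S z x + bf S z y := by
  unfold bf; rw [mulVec_add, dotProduct_add]

theorem SFM_sub_right (x y z : Fin m → ℚ) : bf S z (x - y) = bf S z x - bf S z y := by
  unfold bf; rw [mulVec_sub, dotProduct_sub]

theorem SFM_smul_right (c : ℚ) (x z : Fin m → ℚ) : bf S z (c • x) = c * bf S z x := by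
  unfold bf; rw [mulVec_smul, dotProduct_smul, smul_eq_mul]

theorem SFM_symm (hS : Sᵀ = S) (x y : Fin m → ℚ) : bf S x y = bf S y x := by
  unfold bf
  rw [dotProduct_mulVec, ← mulVec_transpose, hS, dotProduct_comm]

theorem SFM_XX_mulVec (hS : Sᵀ = S) (v a s : Fin m → ℚ) :
    XX S v a *ᵥ s = bf S v s • a - bf S a s • v := by
  unfold XX
  rw [sub_mulVec, vecMulVec_mulVec, vecMulVec_mulVec]
  have h1 : (S *ᵥ v) ⬝ᵥ s = bf S v s := by
    rw [SFM_symm S hS]; unfold bf; rw [dotProduct_comm]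
  have h2 : (S *ᵥ a) ⬝ᵥ s = bf S a s := by
    rw [SFM_symm S hS]; unfold bf; rw [dotProduct_comm]
  rw [h1, h2, op_smul_eq_smul, op_smul_eq_smul]

/-- dual vectors of independent vectors -/
theorem SFM_dual (hdet : S.det ≠ 0) (hS : Sᵀ = S) (p : Fin 2 → Fin m → ℚ)
    (hp : LinearIndependent ℚ p) (c : Fin 2 → ℚ) : ∃ q : Fin m → ℚ, ∀ i, bf S (p i) q = c i := by
  have hU : IsUnit S := (Matrix.isUnit_iff_isUnit_det S).2 (isUnit_iff_ne_zero.2 hdet)
  have hinj : Function.Injective S.mulVec := Matrix.mulVec_injective_iff_isUnit.2 hU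
  have hli : LinearIndependent ℚ (fun i => S.mulVecLin (p i)) := by
    apply hp.map'
    rw [LinearMap.ker_eq_bot]
    exact hinj
  obtain ⟨f, hf⟩ := LinearMap.exists_extend ((Module.Basis.span hli).constr ℚ c)
  have key : ∀ x : Fin m → ℚ, f x = x ⬝ᵥ (fun i => f (Pi.single i 1)) := by
    intro x
    conv_lhs => rw [pi_eq_sum_univ' x]
    rw [map_sum]
    unfold dotProduct
    apply Finset.sum_congr rfl
    intro i _
    rw [map_smul, smul_eq_mul]
  refine ⟨fun i => f (Pi.single i 1), fun i => ?_⟩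
  have h1 : bf S (p i) (fun i => f (Pi.single i 1)) = f (S *ᵥ p i) := by
    rw [key, SFM_symm S hS]
    unfold bf
    rw [dotProduct_comm]
  rw [h1]
  have h2 : f (S *ᵥ p i) = (f ∘ₗ (Submodule.span ℚ (Set.range fun i => S.mulVecLin (p i))).subtype)
      ((Module.Basis.span hli) i) := by
    rw [LinearMap.comp_apply, Submodule.subtype_apply, Module.Basis.span_apply]
    rfl
  rw [h2, hf, Module.Basis.constr_basis]

end

/-- polynomial functions -/
def SFM_P {m : ℕ} (f : (Fin m → ℚ) → ℚ) : Prop :=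
  ∃ P : MvPolynomial (Fin m) ℚ, ∀ u, f u = MvPolynomial.eval u P

theorem SFM_P_const {m : ℕ} (c : ℚ) : SFM_P (fun _ : Fin m → ℚ => c) :=
  ⟨MvPolynomial.C c, fun u => by simp⟩

theorem SFM_P_coord {m : ℕ} (i : Fin m) : SFM_P (fun u : Fin m → ℚ => u i) :=
  ⟨MvPolynomial.X i, fun u => by simp⟩

theorem SFM_P_add {m : ℕ} {f g : (Fin m → ℚ) → ℚ} (hf : SFM_P f) (hg : SFM_P g) :
    SFM_P (fun u => f u + g u) := by
  obtain ⟨P, hP⟩ := hf
  obtain ⟨Q, hQ⟩ := hg
  exact ⟨P + Q, fun u => by rw [map_add, ← hP, ← hQ]⟩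

theorem SFM_P_sub {m : ℕ} {f g : (Fin m → ℚ) → ℚ} (hf : SFM_P f) (hg : SFM_P g) :
    SFM_P (fun u => f u - g u) := by
  obtain ⟨P, hP⟩ := hf
  obtain ⟨Q, hQ⟩ := hg
  exact ⟨P - Q, fun u => by rw [map_sub, ← hP, ← hQ]⟩

theorem SFM_P_mul {m : ℕ} {f g : (Fin m → ℚ) → ℚ} (hf : SFM_P f) (hg : SFM_P g) :
    SFM_P (fun u => f u * g u) := by
  obtain ⟨P, hP⟩ := hf
  obtain ⟨Q, hQ⟩ := hg
  exact ⟨P * Q, fun u => by rw [map_mul, ← hP, ← hQ]⟩

theorem SFM_P_sum {m : ℕ} {κ : Type} (s : Finset κ) (f : κ → (Fin m → ℚ) → ℚ)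
    (hf : ∀ k ∈ s, SFM_P (f k)) : SFM_P (fun u => ∑ k ∈ s, f k u) := by
  classical
  induction s using Finset.induction_on with
  | empty => simp only [Finset.sum_empty]; exact SFM_P_const 0
  | insert a s ha ih =>
    simp only [Finset.sum_insert ha]
    exact SFM_P_add (hf a (Finset.mem_insert_self a s))
      (ih fun k hk => hf k (Finset.mem_insert_of_mem hk))

theorem SFM_P_bf {m : ℕ} (S : MQ m) {x y : (Fin m → ℚ) → Fin m → ℚ}
    (hx : ∀ i, SFM_P (fun u => x u i)) (hy : ∀ i, SFM_P (fun u => y u i)) :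
    SFM_P (fun u => bf S (x u) (y u)) := by
  unfold bf dotProduct mulVec dotProduct
  exact SFM_P_sum _ _ fun i _ => SFM_P_mul (hx i)
    (SFM_P_sum _ _ fun j _ => SFM_P_mul (SFM_P_const _) (hy j))

theorem SFM_P_mulVec {m : ℕ} (S : MQ m) {y : (Fin m → ℚ) → Fin m → ℚ}
    (hy : ∀ i, SFM_P (fun u => y u i)) (i : Fin m) : SFM_P (fun u => (S *ᵥ y u) i) := by
  unfold mulVec dotProduct
  exact SFM_P_sum _ _ fun j _ => SFM_P_mul (SFM_P_const _) (hy j)

theorem SFM (hSXP : SXP_stmt) : SFM_stmt := by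
  intro n S H hS hdet hO p₁ p₂ hp h11 h12 h22
  have h21 : bf S p₂ p₁ = 0 := by rw [SFM_symm S hS]; exact h12
  obtain ⟨q₁, hq₁⟩ := SFM_dual S hdet hS ![p₁, p₂] hp ![1, 0]
  obtain ⟨q₂, hq₂⟩ := SFM_dual S hdet hS ![p₁, p₂] hp ![0, 1]
  have e11 : bf S p₁ q₁ = 1 := hq₁ 0
  have e21 : bf S p₂ q₁ = 0 := hq₁ 1
  have e12 : bf S p₁ q₂ = 0 := hq₂ 0
  have e22 : bf S p₂ q₂ = 1 := hq₂ 1
  set w : (Fin (n + 1) → ℚ) → Fin (n + 1) → ℚ := fun u => bf S u p₂ • p₁ - bf S u p₁ • p₂ with hw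
  set c : (Fin (n + 1) → ℚ) → Fin (n + 1) → ℚ := fun u => bf S u p₁ • q₁ + bf S u p₂ • q₂ with hc
  set a : (Fin (n + 1) → ℚ) → Fin (n + 1) → ℚ := fun u => bf S u (c u) • p₁ - bf S u p₁ • c u
    with ha
  have hww : ∀ u, bf S (w u) (w u) = 0 := by
    intro u
    simp only [hw, SFM_sub_left, SFM_sub_right, SFM_smul_left, SFM_smul_right, h11, h12, h22, h21]
    ring
  have hwc : ∀ u, bf S (w u) (c u) = 0 := by
    intro u
    simp only [hw, hc, SFM_sub_left, SFM_add_right, SFM_smul_left, SFM_smul_right, e11, e12, e21,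
      e22]
    ring
  have hwp : ∀ u, bf S (w u) p₁ = 0 := by
    intro u
    simp only [hw, SFM_sub_left, SFM_smul_left, h11, h21]
    ring
  have hwa : ∀ u, bf S (w u) (a u) = 0 := by
    intro u
    simp only [ha, SFM_sub_right, SFM_smul_right, hwp, hwc]
    ring
  have hwu : ∀ u, bf S (w u) u = 0 := by
    intro u
    simp only [hw, SFM_sub_left, SFM_smul_left]
    rw [SFM_symm S hS p₁ u, SFM_symm S hS p₂ u]
    ring
  have hau : ∀ u, bf S (a u) u = 0 := by
    intro u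
    simp only [ha, SFM_sub_left, SFM_smul_left]
    rw [SFM_symm S hS p₁ u, SFM_symm S hS (c u) u]
    ring
  have hPy : ∀ p : Fin (n + 1) → ℚ, SFM_P (fun u => bf S u p) := fun p =>
    SFM_P_bf S (fun i => SFM_P_coord i) (fun i => SFM_P_const _)
  have hPw : ∀ i, SFM_P (fun u => w u i) := by
    intro i
    simp only [hw, Pi.sub_apply, Pi.smul_apply, smul_eq_mul]
    exact SFM_P_sub (SFM_P_mul (hPy p₂) (SFM_P_const _)) (SFM_P_mul (hPy p₁) (SFM_P_const _))
  have hPc : ∀ i, SFM_P (fun u => c u i) := by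
    intro i
    simp only [hc, Pi.add_apply, Pi.smul_apply, smul_eq_mul]
    exact SFM_P_add (SFM_P_mul (hPy p₁) (SFM_P_const _)) (SFM_P_mul (hPy p₂) (SFM_P_const _))
  have hPa : ∀ i, SFM_P (fun u => a u i) := by
    intro i
    simp only [ha, Pi.sub_apply, Pi.smul_apply, smul_eq_mul]
    exact SFM_P_sub (SFM_P_mul (SFM_P_bf S (fun i => SFM_P_coord i) hPc) (SFM_P_const _))
      (SFM_P_mul (hPy p₁) (hPc i))
  refine ⟨fun u => XX S (w u) (a u), ?_, ?_, ?_, ?_, ?_⟩
  · intro i j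
    show SFM_P (fun u => XX S (w u) (a u) i j)
    unfold XX
    simp only [Matrix.sub_apply, vecMulVec_apply]
    exact SFM_P_sub (SFM_P_mul (hPa i) (SFM_P_mulVec S hPw j))
      (SFM_P_mul (hPw i) (SFM_P_mulVec S hPa j))
  · intro u
    show XX S (w u) (a u) *ᵥ u = 0
    rw [SFM_XX_mulVec S hS, hwu, hau, zero_smul, zero_smul, sub_zero]
  · intro u
    refine ⟨3, ?_⟩
    show XX S (w u) (a u) ^ 3 = 0
    rw [pow_succ, pow_two]
    exact (hSXP _ S H hS hO (w u) (a u) (hww u) (hwa u)).1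
  · intro u
    exact (hSXP _ S H hS hO (w u) (a u) (hww u) (hwa u)).2
  · by_contra hne
    push Not at hne
    set β : ℚ := bf S q₁ q₁ with hβ
    set α : ℚ := (1 - β) / 2 with hα
    set u : Fin (n + 1) → ℚ := q₁ + α • p₁ with hu
    set z : Fin (n + 1) → ℚ := XX S (w u) (a u) *ᵥ q₂ with hz
    have h0 : ∀ i j, u i * z j = u j * z i := fun i j => hne u q₂ i j
    have key : ∀ f g : Fin (n + 1) → ℚ, (u ⬝ᵥ f) * (z ⬝ᵥ g) = (u ⬝ᵥ g) * (z ⬝ᵥ f) := by
      intro f g
      unfold dotProduct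
      rw [Finset.sum_mul_sum, Finset.sum_mul_sum, Finset.sum_comm]
      apply Finset.sum_congr rfl
      intro i _
      apply Finset.sum_congr rfl
      intro j _
      linear_combination (f j * g i) * h0 j i
    have k1 := key (S *ᵥ p₁) (S *ᵥ q₁)
    have y1 : bf S u p₁ = 1 := by
      rw [hu, SFM_add_left, SFM_smul_left, h11, SFM_symm S hS, e11]; ring
    have y2 : bf S u p₂ = 0 := by
      rw [hu, SFM_add_left, SFM_smul_left, h12, SFM_symm S hS, e21]; ring
    have yq : bf S u q₁ = β + α := by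
      rw [hu, SFM_add_left, SFM_smul_left, e11]; ring
    have hcu : c u = q₁ := by
      simp only [hc, y1, y2]; simp
    have hwu' : w u = - p₂ := by
      simp only [hw, y1, y2]; simp
    have hau' : a u = (β + α) • p₁ - q₁ := by
      simp only [ha, hcu, y1, yq]; simp
    have hz' : z = - (a u) + bf S (a u) q₂ • p₂ := by
      rw [hz, SFM_XX_mulVec S hS, hwu']
      have : bf S (-p₂) q₂ = -1 := by
        have h : (-p₂ : Fin (n + 1) → ℚ) = (-1 : ℚ) • p₂ := by simp
        rw [h, SFM_smul_left, e22]; ring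
      rw [this]
      ext i
      simp
    have z1 : bf S z p₁ = 1 := by
      rw [hz', hau', SFM_add_left, SFM_smul_left, h21]
      have h : (-((β + α) • p₁ - q₁) : Fin (n + 1) → ℚ) = q₁ - (β + α) • p₁ := by
        ext i; simp
      rw [h, SFM_sub_left, SFM_smul_left, h11, SFM_symm S hS, e11]
      ring
    have z2 : bf S z q₁ = - α := by
      rw [hz', hau', SFM_add_left, SFM_smul_left, e21]
      have h : (-((β + α) • p₁ - q₁) : Fin (n + 1) → ℚ) = q₁ - (β + α) • p₁ := by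
        ext i; simp
      rw [h, SFM_sub_left, SFM_smul_left, e11, ← hβ]
      ring
    have k2 : bf S u p₁ * bf S z q₁ = bf S u q₁ * bf S z p₁ := k1
    rw [y1, z1, z2, yq] at k2
    have : (1 : ℚ) = 0 := by
      rw [hα] at k2
      linarith
    exact one_ne_zero this

end Pool.Agent.UG
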